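import Pool.Agent.Helper31.BQ.Stmts2

/-!
# Row DG: diagonal operators on `WW`
-/

set_option autoImplicit false

namespace Pool.Agent.Helper12.BQ

open Filter Topology ENNReal Pool.Agent.Helper31.BQ

section
variable {H : Type} [NormedAddCommGroup H] [InnerProductSpace ℝ H]

theorem dg_two : 0 < (2 : ℝ≥0∞).toReal := by norm_num

/-- diagonal operators with bounded entries -/
theorem dg_gen (T : ℕ → H →L[ℝ] H) (C : ℝ) (hC : 0 ≤ C) (hT : ∀ k, ‖T k‖ ≤ C) :
    ∃ D : WW H →L[ℝ] WW H, (∀ x k g, cd (D x) k g = T k (cd x k g)) ∧ ‖D‖ ≤ C := by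
  have hcomp : ∀ (x : WW H) (k : ℕ),
      ‖(fun g => T k ((x : ∀ k, GG k → H) k g) : GG k → H)‖ ≤
        C * ‖(x : ∀ k, GG k → H) k‖ := by
    intro x k
    rw [pi_norm_le_iff_of_nonneg (mul_nonneg hC (norm_nonneg _))]
    intro g
    calc ‖T k ((x : ∀ k, GG k → H) k g)‖ ≤ ‖T k‖ * ‖(x : ∀ k, GG k → H) k g‖ :=
          (T k).le_opNorm _
      _ ≤ C * ‖(x : ∀ k, GG k → H) k‖ :=
          mul_le_mul (hT k) (norm_le_pi_norm _ g) (norm_nonneg _) hC
  have hle : ∀ (x : WW H) (k : ℕ),
      ‖(fun g => T k ((x : ∀ k, GG k → H) k g) : GG k → H)‖ ^ (2 : ℝ≥0∞).toReal ≤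
        C ^ (2 : ℝ≥0∞).toReal * ‖(x : ∀ k, GG k → H) k‖ ^ (2 : ℝ≥0∞).toReal := by
    intro x k
    rw [← Real.mul_rpow hC (norm_nonneg _)]
    exact Real.rpow_le_rpow (norm_nonneg _) (hcomp x k) dg_two.le
  have hsum : ∀ x : WW H, Summable fun k =>
      ‖(x : ∀ k, GG k → H) k‖ ^ (2 : ℝ≥0∞).toReal := fun x => (lp.memℓp x).summable dg_two
  have hsum' : ∀ x : WW H, Summable fun k =>
      ‖(fun g => T k ((x : ∀ k, GG k → H) k g) : GG k → H)‖ ^ (2 : ℝ≥0∞).toReal := fun x =>
    Summable.of_nonneg_of_le (fun k => Real.rpow_nonneg (norm_nonneg _) _) (hle x)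
      ((hsum x).mul_left _)
  have hmem : ∀ x : WW H,
      Memℓp (fun k => (fun g => T k ((x : ∀ k, GG k → H) k g) : GG k → H)) 2 :=
    fun x => memℓp_gen (hsum' x)
  let L : WW H →ₗ[ℝ] WW H :=
    { toFun := fun x => ⟨fun k => (fun g => T k ((x : ∀ k, GG k → H) k g) : GG k → H), hmem x⟩
      map_add' := by
        intro x y
        apply lp.ext
        funext k g
        exact map_add (T k) _ _
      map_smul' := by
        intro c x
        apply lp.ext
        funext k g
        exact map_smul (T k) c _ }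
  have hL : ∀ x, ‖L x‖ ≤ C * ‖x‖ := by
    intro x
    apply lp.norm_le_of_tsum_le dg_two (mul_nonneg hC (norm_nonneg _))
    rw [Real.mul_rpow hC (norm_nonneg _), lp.norm_rpow_eq_tsum dg_two x, ← tsum_mul_left]
    exact Summable.tsum_le_tsum (hle x) (hsum' x) ((hsum x).mul_left _)
  exact ⟨L.mkContinuous C hL, fun x k g => rfl, L.mkContinuous_norm_le hC _⟩

omit [InnerProductSpace ℝ H] in
theorem dg_ext {x y : WW H} (h : ∀ k g, cd x k g = cd y k g) : x = y := by
  apply lp.ext
  funext k g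
  exact h k g

/-- evaluation at a block -/
noncomputable def dg_ev (H : Type) [NormedAddCommGroup H] [InnerProductSpace ℝ H] (k : ℕ) :
    WW H →L[ℝ] (GG k → H) :=
  LinearMap.mkContinuous
    { toFun := fun x => (x : ∀ k, GG k → H) k
      map_add' := fun x y => rfl
      map_smul' := fun c x => rfl } 1 (fun x => by
        rw [one_mul]
        exact lp.norm_apply_le_norm two_ne_zero x k)

/-- one block -/
noncomputable def dg_P (T : H →L[ℝ] H) (k : ℕ) : (GG k → H) →L[ℝ] (GG k → H) :=
  ContinuousLinearMap.pi fun g => T.comp (ContinuousLinearMap.proj g)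

theorem dg_P_compact (T : H →L[ℝ] H) (k : ℕ)
    (hT : FiniteDimensional ℝ (LinearMap.range (T : H →ₗ[ℝ] H))) :
    IsCompactOperator (dg_P T k) := by
  let R : Submodule ℝ H := LinearMap.range (T : H →ₗ[ℝ] H)
  have : FiniteDimensional ℝ R := hT
  have : ProperSpace R := FiniteDimensional.proper ℝ R
  let T' : H →L[ℝ] R := T.codRestrict R (fun x => ⟨x, rfl⟩)
  let A : (GG k → H) →L[ℝ] (GG k → R) :=
    ContinuousLinearMap.pi fun g => T'.comp (ContinuousLinearMap.proj g)
  let B : (GG k → R) →L[ℝ] (GG k → H) :=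
    ContinuousLinearMap.pi fun g => R.subtypeL.comp (ContinuousLinearMap.proj g)
  have h0 : IsCompactOperator (id : (GG k → R) → (GG k → R)) := isCompactOperator_id
  have h1 : IsCompactOperator (id ∘ A) := h0.comp_clm A
  have h2 : IsCompactOperator (B ∘ (id ∘ A)) := h1.clm_comp B
  have h3 : (dg_P T k : (GG k → H) → (GG k → H)) = B ∘ (id ∘ A) := by
    funext x g
    rfl
  rw [h3]
  exact h2

/-- the partial sums -/
noncomputable def dg_A (T : ℕ → H →L[ℝ] H) (k : ℕ) : WW H →L[ℝ] WW H :=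
  (lp.singleContinuousLinearMap ℝ (fun k : ℕ => (GG k → H)) 2 k).comp
    ((dg_P (T k) k).comp (dg_ev H k))

theorem dg_A_compact (T : ℕ → H →L[ℝ] H) (k : ℕ)
    (hT : FiniteDimensional ℝ (LinearMap.range (T k : H →ₗ[ℝ] H))) :
    IsCompactOperator (dg_A T k) := by
  have h1 := (dg_P_compact (T k) k hT).comp_clm (dg_ev H k)
  exact h1.clm_comp (lp.singleContinuousLinearMap ℝ (fun k : ℕ => (GG k → H)) 2 k)

theorem dg_sum_compact (T : ℕ → H →L[ℝ] H)
    (hT : ∀ k, FiniteDimensional ℝ (LinearMap.range (T k : H →ₗ[ℝ] H))) (N : ℕ) :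
    IsCompactOperator (∑ k ∈ Finset.range N, dg_A T k : WW H →L[ℝ] WW H) := by
  induction N with
  | zero =>
    rw [Finset.sum_range_zero]
    exact isCompactOperator_zero
  | succ N ih =>
    rw [Finset.sum_range_succ]
    exact ih.add (dg_A_compact T N (hT N))

theorem dg_sum_apply (T : ℕ → H →L[ℝ] H) (N : ℕ) (x : WW H) (l : ℕ) (g : GG l) :
    cd ((∑ k ∈ Finset.range N, dg_A T k : WW H →L[ℝ] WW H) x) l g =
      if l < N then T l (cd x l g) else 0 := by
  induction N with
  | zero =>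
    rw [Finset.sum_range_zero, if_neg (Nat.not_lt_zero l)]
    rfl
  | succ N ih =>
    rw [Finset.sum_range_succ]
    have h1 : cd ((∑ k ∈ Finset.range N, dg_A T k + dg_A T N : WW H →L[ℝ] WW H) x) l g =
        cd ((∑ k ∈ Finset.range N, dg_A T k : WW H →L[ℝ] WW H) x) l g +
          cd (dg_A T N x) l g := rfl
    have h2 : cd (dg_A T N x) l g = if l = N then T l (cd x l g) else 0 := by
      have h3 : cd (dg_A T N x) l g =
          (Pi.single N (fun g' => T N (cd x N g')) : ∀ k, GG k → H) l g := by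
        unfold cd dg_A
        rw [ContinuousLinearMap.comp_apply, lp.singleContinuousLinearMap_apply,
          lp.coeFn_single]
        rfl
      rw [h3]
      by_cases hl : l = N
      · subst hl
        rw [Pi.single_eq_same, if_pos rfl]
      · rw [Pi.single_eq_of_ne hl, if_neg hl]
        rfl
    rw [h1, ih, h2]
    by_cases hl : l < N
    · rw [if_pos hl, if_neg hl.ne, if_pos (Nat.lt_succ_of_lt hl), add_zero]
    · by_cases hl' : l = N
      · rw [if_neg hl, if_pos hl', if_pos (by omega), zero_add]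
      · rw [if_neg hl, if_neg hl', if_neg (by omega), zero_add]

end

theorem st_DG : ST_DG := by
  intro H _ _ _ T hT
  obtain ⟨D, hD, hD1⟩ := dg_gen T 1 zero_le_one hT
  refine ⟨D, hD, hD1, fun hfin hlim => ?_⟩
  have hlimD : Tendsto (fun N => (∑ k ∈ Finset.range N, dg_A T k : WW H →L[ℝ] WW H)) atTop
      (𝓝 D) := by
    refine (tendsto_iff_norm_sub_tendsto_zero (E := WW H →L[ℝ] WW H)).2 ?_
    rw [Metric.tendsto_atTop] at hlim ⊢
    intro ε hε
    obtain ⟨N0, hN0⟩ := hlim (ε / 2) (half_pos hε)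
    refine ⟨N0, fun N hN => ?_⟩
    obtain ⟨D', hD', hD1'⟩ := dg_gen (fun k => if k < N then 0 else T k) (ε / 2) (by positivity)
      (by
        intro k
        by_cases hk : k < N
        · simp only [if_pos hk, norm_zero]
          positivity
        · simp only [if_neg hk]
          have h1 := hN0 k (by omega)
          rw [Real.dist_eq, sub_zero, abs_of_nonneg (norm_nonneg _)] at h1
          exact h1.le)
    have hEq : (∑ k ∈ Finset.range N, dg_A T k : WW H →L[ℝ] WW H) - D = -D' := by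
      apply ContinuousLinearMap.ext
      intro x
      apply dg_ext
      intro k g
      have h1 : cd (((∑ k ∈ Finset.range N, dg_A T k : WW H →L[ℝ] WW H) - D) x) k g =
          cd ((∑ k ∈ Finset.range N, dg_A T k : WW H →L[ℝ] WW H) x) k g - cd (D x) k g := rfl
      have h2 : cd ((-D') x) k g = -cd (D' x) k g := rfl
      rw [h1, h2, dg_sum_apply, hD, hD']
      by_cases hk : k < N
      · simp [hk]
      · simp [hk]
    rw [hEq]
    have h9 : ‖(-D' : WW H →L[ℝ] WW H)‖ = ‖D'‖ := norm_neg D'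
    have h10 : 0 ≤ ‖D'‖ := norm_nonneg D'
    have h11 : |‖D'‖ - 0| < ε := by
      rw [abs_lt]
      constructor <;> linarith
    have h12 : |‖(-D' : WW H →L[ℝ] WW H)‖ - 0| < ε := by
      rw [h9]
      exact h11
    exact h12
  exact isCompactOperator_of_tendsto hlimD
    (Filter.Eventually.of_forall fun N => dg_sum_compact T hfin N)

end Pool.Agent.Helper12.BQ
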